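import Mathlib

/-!
# MP_773c46_pr: a zero-range process of finite density can explode

For the rate `g(n) = n` (independent particles) the process explodes at the origin at every time
`t > 0` whenever `∑ η(x) p(-x) = ∞`, and this happens for a kernel on `ℤ` with
`p(-4^k) = 2^(-k)` and the configuration with `4^k` particles at the site `4^k`, `k ≥ 1`, which has
finite density.

Proof. With `c t x = e^(-t) (1_{x = 0} + t p(-x)) / 2` the function
`h t η = ∏ (1 - c t x)^(η x)` satisfies `L (h t) ≤ ∂h/∂t`, so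
`E_η 2^(-η_t(0)) ≤ h t η ≤ exp (-(t e^(-t) / 2) ∑ η(x) p(-x))` by the maximum principle.
-/

set_option autoImplicit false

namespace Pool.Agent.Results.MP_773c46_pr.Explosion

open Finset Filter Topology MeasureTheory
open scoped BoundedContinuousFunction

/-- configurations of finitely many particles on `ℤ` -/
abbrev Conf : Type := ℤ →₀ ℕ

instance : TopologicalSpace Conf := ⊥
instance : DiscreteTopology Conf := ⟨rfl⟩
instance : MeasurableSpace Conf := ⊤

/-- the number of particles -/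
def total (η : Conf) : ℕ := η.sum fun _ n => n

/-- `η^{x,y}`: one particle moves from `x` to `y` -/
noncomputable def move (η : Conf) (x y : ℤ) : Conf :=
  η - Finsupp.single x 1 + Finsupp.single y 1

/-- a rate function `g` and a jump kernel `p` on `ℤ` as in the problem -/
structure Model where
  /-- the rate at which a site with `n` particles emits a particle -/
  g : ℕ → ℝ
  /-- the probability of a jump from `x` to `y` is `p (y - x)` -/
  p : ℤ → ℝ
  g_zero : g 0 = 0
  g_mono : Monotone g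
  g_top : Tendsto g atTop atTop
  p_nonneg : ∀ z, 0 ≤ p z
  p_sum : HasSum p 1

/-- the generator `L f (η) = ∑_{x ≠ y} g(η(x)) p(y - x) (f(η^{x,y}) - f(η))` -/
noncomputable def L (M : Model) (f : Conf → ℝ) (η : Conf) : ℝ :=
  ∑ x ∈ η.support, M.g (η x) *
    ∑' y : ℤ, if y = x then 0 else M.p (y - x) * (f (move η x y) - f η)

section basic

lemma g_nonneg (M : Model) (n : ℕ) : 0 ≤ M.g n := by
  rw [← M.g_zero]; exact M.g_mono (Nat.zero_le n)

lemma sum_p (M : Model) (x : ℤ) : HasSum (fun y => M.p (y - x)) 1 :=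
  (Equiv.subRight x).hasSum_iff.2 M.p_sum

lemma total_add (η ζ : Conf) : total (η + ζ) = total η + total ζ := by
  unfold total
  exact Finsupp.sum_add_index' (fun _ => rfl) (fun _ _ _ => rfl)

lemma total_single (x : ℤ) (n : ℕ) : total (Finsupp.single x n) = n := by
  unfold total
  exact Finsupp.sum_single_index rfl

lemma sub_add (η : Conf) (x : ℤ) (hx : x ∈ η.support) :
    η - Finsupp.single x 1 + Finsupp.single x 1 = η := by
  ext y
  have h1 : 1 ≤ η x := Nat.one_le_iff_ne_zero.2 (Finsupp.mem_support_iff.1 hx)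
  by_cases h : y = x
  · subst h
    simp
    omega
  · simp [Ne.symm h]

lemma total_move (η : Conf) (x y : ℤ) (hx : x ∈ η.support) : total (move η x y) = total η := by
  have h := congrArg total (sub_add η x hx)
  rw [total_add, total_single] at h
  unfold move
  rw [total_add, total_single, h]

lemma le_total (η : Conf) (x : ℤ) : η x ≤ total η := by
  by_cases hx : x ∈ η.support
  · exact Finset.single_le_sum (f := fun x => η x) (fun _ _ => Nat.zero_le _) hx
  · rw [Finsupp.notMem_support_iff.1 hx]; exact Nat.zero_le _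

lemma card_le_total (η : Conf) : η.support.card ≤ total η := by
  have h : ∑ _x ∈ η.support, 1 ≤ ∑ x ∈ η.support, η x :=
    Finset.sum_le_sum fun x hx => Nat.one_le_iff_ne_zero.2 (Finsupp.mem_support_iff.1 hx)
  simpa [total, Finsupp.sum] using h

lemma term_bound (M : Model) {f : Conf → ℝ} {C : ℝ} (hf : ∀ η, |f η| ≤ C) (η : Conf) (x y : ℤ) :
    |if y = x then 0 else M.p (y - x) * (f (move η x y) - f η)| ≤ M.p (y - x) * (2 * C) := by
  have hp := M.p_nonneg (y - x)
  have hC : 0 ≤ C := (abs_nonneg _).trans (hf η)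
  split_ifs
  · simp only [abs_zero]; positivity
  · rw [abs_mul, abs_of_nonneg hp]
    apply mul_le_mul_of_nonneg_left _ hp
    have h1 := abs_sub (f (move η x y)) (f η)
    have h2 := hf (move η x y)
    have h3 := hf η
    linarith

lemma term_summable (M : Model) {f : Conf → ℝ} {C : ℝ} (hf : ∀ η, |f η| ≤ C) (η : Conf) (x : ℤ) :
    Summable fun y : ℤ => if y = x then 0 else M.p (y - x) * (f (move η x y) - f η) :=
  Summable.of_norm_bounded ((sum_p M x).summable.mul_right (2 * C))
    (fun y => by rw [Real.norm_eq_abs]; exact term_bound M hf η x y)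

lemma inner_bound (M : Model) {f : Conf → ℝ} {C : ℝ} (hf : ∀ η, |f η| ≤ C) (η : Conf) (x : ℤ) :
    |∑' y : ℤ, if y = x then 0 else M.p (y - x) * (f (move η x y) - f η)| ≤ 2 * C := by
  have h1 := tsum_of_norm_bounded ((sum_p M x).mul_right (2 * C))
    (fun y => by rw [Real.norm_eq_abs]; exact term_bound M hf η x y)
  rwa [one_mul, Real.norm_eq_abs] at h1

lemma L_bound (M : Model) {f : Conf → ℝ} {C : ℝ} (hf : ∀ η, |f η| ≤ C) (N : ℕ) (η : Conf)
    (hη : total η ≤ N) : |L M f η| ≤ N * M.g N * (2 * C) := by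
  have hC : 0 ≤ C := (abs_nonneg _).trans (hf η)
  unfold L
  refine (Finset.abs_sum_le_sum_abs _ _).trans ?_
  have h1 : ∀ x ∈ η.support, |M.g (η x) *
      ∑' y : ℤ, if y = x then 0 else M.p (y - x) * (f (move η x y) - f η)| ≤
      M.g N * (2 * C) := by
    intro x _
    rw [abs_mul, abs_of_nonneg (g_nonneg M _)]
    exact mul_le_mul (M.g_mono ((le_total η x).trans hη)) (inner_bound M hf η x) (abs_nonneg _)
      (g_nonneg M _)
  refine (Finset.sum_le_sum h1).trans ?_
  rw [Finset.sum_const, nsmul_eq_mul, mul_assoc]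
  apply mul_le_mul_of_nonneg_right _ (mul_nonneg (g_nonneg M _) (by positivity))
  exact_mod_cast (card_le_total η).trans hη

lemma L_add (M : Model) {f h : Conf → ℝ} {C D : ℝ} (hf : ∀ η, |f η| ≤ C) (hh : ∀ η, |h η| ≤ D)
    (η : Conf) : L M (fun ζ => f ζ + h ζ) η = L M f η + L M h η := by
  unfold L
  rw [← Finset.sum_add_distrib]
  refine Finset.sum_congr rfl fun x _ => ?_
  rw [← mul_add, ← (term_summable M hf η x).tsum_add (term_summable M hh η x)]
  congr 1
  refine tsum_congr fun y => ?_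
  split_ifs
  · simp
  · ring

lemma L_smul (M : Model) (f : Conf → ℝ) (a : ℝ) (η : Conf) :
    L M (fun ζ => a * f ζ) η = a * L M f η := by
  unfold L
  rw [Finset.mul_sum]
  refine Finset.sum_congr rfl fun x _ => ?_
  have h1 : (∑' y : ℤ, if y = x then 0 else M.p (y - x) * (a * f (move η x y) - a * f η)) =
      a * ∑' y : ℤ, if y = x then 0 else M.p (y - x) * (f (move η x y) - f η) := by
    rw [← tsum_mul_left]
    refine tsum_congr fun y => ?_
    split_ifs
    · simp
    · ring
  rw [h1]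
  ring

lemma bcf_bound (f : Conf →ᵇ ℝ) (η : Conf) : |f η| ≤ ‖f‖ := by
  rw [← Real.norm_eq_abs]; exact f.norm_coe_le_norm η

end basic

/-- The generator on bounded functions, restricted to the configurations with at most `N`
particles (the number of particles is preserved): a bounded linear operator. -/
noncomputable def gen (M : Model) (N : ℕ) : (Conf →ᵇ ℝ) →L[ℝ] (Conf →ᵇ ℝ) :=
  LinearMap.mkContinuous
    { toFun := fun f => BoundedContinuousFunction.ofNormedAddCommGroupDiscrete
        (fun η => if total η ≤ N then L M f η else 0) (N * M.g N * (2 * ‖f‖)) (by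
          intro η
          have hg := g_nonneg M N
          by_cases h : total η ≤ N
          · rw [if_pos h, Real.norm_eq_abs]
            exact L_bound M (bcf_bound f) N η h
          · rw [if_neg h, norm_zero]; positivity)
      map_add' := fun f h => by
        ext η
        simp only [BoundedContinuousFunction.coe_ofNormedAddCommGroupDiscrete,
          BoundedContinuousFunction.coe_add, Pi.add_apply]
        by_cases h' : total η ≤ N
        · simp only [if_pos h']
          exact L_add M (bcf_bound f) (bcf_bound h) η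
        · simp only [if_neg h', add_zero]
      map_smul' := fun a f => by
        ext η
        simp only [BoundedContinuousFunction.coe_ofNormedAddCommGroupDiscrete,
          BoundedContinuousFunction.coe_smul, RingHom.id_apply, smul_eq_mul]
        by_cases h' : total η ≤ N
        · simp only [if_pos h']
          exact L_smul M f a η
        · simp only [if_neg h', mul_zero] }
    (N * M.g N * 2) (by
      intro f
      have hg := g_nonneg M N
      rw [BoundedContinuousFunction.norm_le (by positivity)]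
      intro η
      change ‖if total η ≤ N then L M f η else 0‖ ≤ _
      by_cases h : total η ≤ N
      · rw [if_pos h, Real.norm_eq_abs]
        have := L_bound M (bcf_bound f) N η h
        linarith
      · rw [if_neg h, norm_zero]; positivity)

/-- the exponential of a bounded operator -/
noncomputable def expo {E : Type} [NormedAddCommGroup E] [NormedSpace ℝ E] (A : E →L[ℝ] E) :
    E →L[ℝ] E := NormedSpace.exp A

/-- `P_t = exp (t L)`: for a configuration `η` of at most `N` particles, `semi M N t f η` is the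
expectation of `f(η_t)` for the zero-range process `η_t` started from `η`. -/
noncomputable def semi (M : Model) (N : ℕ) (t : ℝ) : (Conf →ᵇ ℝ) →L[ℝ] (Conf →ᵇ ℝ) :=
  expo (t • gen M N)

/-- `X` has the law of the zero-range process at the time `t`, started from `η`. -/
def HasLaw (M : Model) (η : Conf) (t : ℝ) {Ω : Type} [MeasurableSpace Ω] (P : Measure Ω)
    (X : Ω → Conf) : Prop :=
  Measurable X ∧ ∀ f : Conf →ᵇ ℝ, ∫ ω, f (X ω) ∂P = semi M (total η) t f η

/-- `η^n`: the restriction of `η` to the sites `x` with `|x| ≤ n` -/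
noncomputable def cut (η : ℤ → ℕ) (n : ℕ) : Conf :=
  Finsupp.onFinset (Finset.Icc (-(n : ℤ)) n) (fun x => if |x| ≤ n then η x else 0) (by
    intro x hx
    rw [Finset.mem_Icc]
    by_contra h
    apply hx
    rw [if_neg]
    intro h'
    exact h (abs_le.1 h'))

/-- finite asymptotic density: the averages of `η` over the intervals `[-n, n]` are bounded -/
def FiniteDensity (η : ℤ → ℕ) : Prop :=
  ∃ C : ℝ, ∀ n : ℕ, (∑ x ∈ Finset.Icc (-(n : ℤ)) n, (η x : ℝ)) ≤ C * (2 * n + 1)

/-- the indicator function of the event that there are at most `m` particles at the origin -/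
noncomputable def atMost (m : ℕ) : Conf →ᵇ ℝ :=
  BoundedContinuousFunction.ofNormedAddCommGroupDiscrete
    (fun η => if η 0 ≤ m then 1 else 0) 1 (by
      intro η
      split_ifs <;> simp)

section semigroup

variable {E : Type} [NormedAddCommGroup E] [NormedSpace ℝ E] [CompleteSpace E]

omit [CompleteSpace E] in
lemma expo_zero (A : E →L[ℝ] E) : expo ((0 : ℝ) • A) = 1 := by
  unfold expo
  rw [zero_smul, NormedSpace.exp_zero]

lemma hasDerivAt_expo (A : E →L[ℝ] E) (t : ℝ) :
    HasDerivAt (fun u : ℝ => expo (u • A)) (A * expo (t • A)) t := by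
  unfold expo
  exact hasDerivAt_exp_smul_const' A t

lemma semi_zero (M : Model) (N : ℕ) (f : Conf →ᵇ ℝ) : semi M N 0 f = f := by
  unfold semi
  rw [expo_zero]
  rfl

lemma semi_deriv (M : Model) (N : ℕ) (f : Conf →ᵇ ℝ) (t : ℝ) :
    HasDerivAt (fun u : ℝ => semi M N u f) (gen M N (semi M N t f)) t := by
  have h := hasDerivAt_expo (gen M N) t
  have h2 := h.clm_apply (hasDerivAt_const t f)
  simpa [semi] using h2

lemma semi_deriv_pt (M : Model) (N : ℕ) (f : Conf →ᵇ ℝ) (t : ℝ) (η : Conf) (hη : total η ≤ N) :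
    HasDerivAt (fun u : ℝ => semi M N u f η) (L M (semi M N t f) η) t := by
  have h := semi_deriv M N f t
  have h2 := ((BoundedContinuousFunction.evalCLM ℝ η).hasFDerivAt
    (x := semi M N t f)).comp_hasDerivAt t h
  have h3 : (BoundedContinuousFunction.evalCLM ℝ η) (gen M N (semi M N t f)) =
      L M (semi M N t f) η := by
    change (if total η ≤ N then L M (semi M N t f) η else 0) = _
    rw [if_pos hη]
  rw [h3] at h2
  exact h2

end semigroup

section comparison

/-- total jump rate -/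
noncomputable def rate (M : Model) (η : Conf) : ℝ := ∑ x ∈ η.support, M.g (η x)

lemma rate_le (M : Model) (N : ℕ) (η : Conf) (hη : total η ≤ N) : rate M η ≤ N * M.g N := by
  unfold rate
  have h1 : ∀ x ∈ η.support, M.g (η x) ≤ M.g N := fun x _ => M.g_mono ((le_total η x).trans hη)
  refine (Finset.sum_le_sum h1).trans ?_
  rw [Finset.sum_const, nsmul_eq_mul]
  apply mul_le_mul_of_nonneg_right _ (g_nonneg M _)
  exact_mod_cast (card_le_total η).trans hη

lemma L_le (M : Model) {D : Conf → ℝ} {C : ℝ} (hD : ∀ η, |D η| ≤ C) (N : ℕ) (B : ℝ)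
    (hB : ∀ η, total η ≤ N → D η ≤ B) (η : Conf) (hη : total η ≤ N) :
    L M D η ≤ rate M η * (B - D η) := by
  unfold L rate
  rw [Finset.sum_mul]
  refine Finset.sum_le_sum fun x hx => ?_
  apply mul_le_mul_of_nonneg_left _ (g_nonneg M _)
  have h1 : ∑' y : ℤ, (if y = x then 0 else M.p (y - x) * (D (move η x y) - D η)) ≤
      ∑' y : ℤ, M.p (y - x) * (B - D η) := by
    refine Summable.tsum_le_tsum ?_ (term_summable M hD η x) ((sum_p M x).summable.mul_right _)
    intro y
    have hp := M.p_nonneg (y - x)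
    split_ifs
    · exact mul_nonneg hp (by linarith [hB η hη])
    · apply mul_le_mul_of_nonneg_left _ hp
      have := hB (move η x y) (by rw [total_move η x y hx]; exact hη)
      linarith
  rwa [tsum_mul_right, (sum_p M x).tsum_eq, one_mul] at h1

lemma L_sub (M : Model) {f h : Conf → ℝ} {C D : ℝ} (hf : ∀ η, |f η| ≤ C) (hh : ∀ η, |h η| ≤ D)
    (η : Conf) : L M (fun ζ => f ζ - h ζ) η = L M f η - L M h η := by
  have h1 := L_add M hf (h := fun ζ => (-1) * h ζ) (D := D)
    (fun η => by rw [abs_mul, abs_neg, abs_one, one_mul]; exact hh η) η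
  rw [L_smul] at h1
  have h2 : (fun ζ => f ζ - h ζ) = fun ζ => f ζ + (-1) * h ζ := by
    funext ζ; ring
  rw [h2, h1]
  ring

/-- maximum principle -/
lemma cmp (M : Model) (N : ℕ) (T : ℝ) (hT : 0 ≤ T) (f : Conf →ᵇ ℝ) (h d : ℝ → Conf → ℝ) (C : ℝ)
    (hb : ∀ t ∈ Set.Icc 0 T, ∀ ζ, |h t ζ| ≤ C) (h0 : ∀ ζ, f ζ ≤ h 0 ζ)
    (hd : ∀ t ∈ Set.Icc 0 T, ∀ ζ, total ζ ≤ N →
      HasDerivAt (fun u => h u ζ) (d t ζ) t ∧ L M (h t) ζ ≤ d t ζ) :
    ∀ t ∈ Set.Icc 0 T, ∀ ζ, total ζ ≤ N → semi M N t f ζ ≤ h t ζ := by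
  have hcont : Continuous fun t : ℝ => semi M N t f :=
    continuous_iff_continuousAt.2 fun t => (semi_deriv M N f t).continuousAt
  obtain ⟨K, hK⟩ := (isCompact_Icc (a := (0:ℝ)) (b := T)).exists_bound_of_continuousOn
    hcont.continuousOn
  set D : ℝ → Conf → ℝ := fun t ζ => semi M N t f ζ - h t ζ with hDdef
  have hkb : ∀ t ∈ Set.Icc 0 T, ∀ ζ, |semi M N t f ζ| ≤ K := fun t ht ζ =>
    (bcf_bound _ ζ).trans (hK t ht)
  have hDb : ∀ t ∈ Set.Icc 0 T, ∀ ζ, |D t ζ| ≤ K + C := by
    intro t ht ζ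
    have h1 := abs_sub (semi M N t f ζ) (h t ζ)
    have h2 := hkb t ht ζ
    have h3 := hb t ht ζ
    show |semi M N t f ζ - h t ζ| ≤ _
    linarith
  set S : Set ℝ := {r | ∃ t ∈ Set.Icc 0 T, ∃ ζ, total ζ ≤ N ∧ r = D t ζ} with hS
  have hSb : BddAbove S := by
    refine ⟨K + C, ?_⟩
    rintro r ⟨t, ht, ζ, _, rfl⟩
    exact (le_abs_self _).trans (hDb t ht ζ)
  have hSn : S.Nonempty :=
    ⟨D 0 0, 0, ⟨le_refl _, hT⟩, 0, by simp [total], rfl⟩
  set B : ℝ := max (sSup S) 0 with hBdef
  have hB0 : 0 ≤ B := le_max_right _ _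
  have hB : ∀ t ∈ Set.Icc 0 T, ∀ ζ, total ζ ≤ N → D t ζ ≤ B := fun t ht ζ hζ =>
    (le_csSup hSb ⟨t, ht, ζ, hζ, rfl⟩).trans (le_max_left _ _)
  have hgN := g_nonneg M N
  have key : ∀ t ∈ Set.Icc 0 T, ∀ ζ, total ζ ≤ N →
      D t ζ ≤ B * (1 - Real.exp (-(N * M.g N * T))) := by
    intro t ht ζ hζ
    set r : ℝ := rate M ζ with hr
    have hr0 : 0 ≤ r := Finset.sum_nonneg fun x _ => g_nonneg M _
    have hder : ∀ u ∈ Set.Icc 0 T, HasDerivAt (fun u => Real.exp (r * u) * (D u ζ - B))
        (Real.exp (r * u) * r * (D u ζ - B) +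
          Real.exp (r * u) * (L M (semi M N u f) ζ - d u ζ)) u := by
      intro u hu
      have h1 : HasDerivAt (fun u : ℝ => Real.exp (r * u)) (Real.exp (r * u) * r) u := by
        have h2 : HasDerivAt (fun u : ℝ => r * u) r u := by
          simpa using (hasDerivAt_id u).const_mul r
        exact h2.exp
      have h3 : HasDerivAt (fun u => D u ζ - B) (L M (semi M N u f) ζ - d u ζ) u :=
        ((semi_deriv_pt M N f u ζ hζ).sub (hd u hu ζ hζ).1).sub_const B
      exact h1.mul h3
    have hanti : AntitoneOn (fun u => Real.exp (r * u) * (D u ζ - B)) (Set.Icc 0 T) := by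
      apply antitoneOn_of_deriv_nonpos (convex_Icc 0 T)
      · exact fun u hu => (hder u hu).continuousAt.continuousWithinAt
      · intro u hu
        rw [interior_Icc] at hu
        exact (hder u ⟨hu.1.le, hu.2.le⟩).differentiableAt.differentiableWithinAt
      · intro u hu
        rw [interior_Icc] at hu
        have hu' : u ∈ Set.Icc 0 T := ⟨hu.1.le, hu.2.le⟩
        rw [(hder u hu').deriv]
        have h1 := L_le M (hDb u hu') N B (hB u hu') ζ hζ
        have h2 : L M (D u) ζ = L M (semi M N u f) ζ - L M (h u) ζ :=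
          L_sub M (hkb u hu') (hb u hu') ζ
        have h3 := (hd u hu' ζ hζ).2
        have h4 : 0 < Real.exp (r * u) := Real.exp_pos _
        have h5 : r * (D u ζ - B) + (L M (semi M N u f) ζ - d u ζ) ≤ 0 := by
          rw [h2] at h1
          have : rate M ζ * (B - D u ζ) = -(r * (D u ζ - B)) := by rw [← hr]; ring
          linarith
        have h6 := mul_nonpos_of_nonneg_of_nonpos h4.le h5
        linarith
    have h1 := hanti ⟨le_refl _, hT⟩ ht ht.1
    simp only [mul_zero, Real.exp_zero, one_mul] at h1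
    have h2 : D 0 ζ ≤ 0 := by
      show semi M N 0 f ζ - h 0 ζ ≤ 0
      rw [semi_zero]
      linarith [h0 ζ]
    have h3 : Real.exp (r * t) * (D t ζ - B) ≤ -B := by linarith
    have h4 : 0 < Real.exp (r * t) := Real.exp_pos _
    have h5 : D t ζ - B ≤ -B * Real.exp (-(r * t)) := by
      rw [Real.exp_neg, ← div_eq_mul_inv, le_div_iff₀ h4]
      linarith
    have h6 : Real.exp (-(N * M.g N * T)) ≤ Real.exp (-(r * t)) := by
      apply Real.exp_le_exp.2
      have h7 : r ≤ N * M.g N := rate_le M N ζ hζ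
      have h8 : r * t ≤ N * M.g N * T := mul_le_mul h7 ht.2 ht.1 (by positivity)
      linarith
    nlinarith
  have hc : 0 < Real.exp (-(N * M.g N * T)) := Real.exp_pos _
  have h1 : sSup S ≤ B * (1 - Real.exp (-(N * M.g N * T))) := by
    apply csSup_le hSn
    rintro r ⟨t, ht, ζ, hζ, rfl⟩
    exact key t ht ζ hζ
  have hBle : B ≤ 0 := by
    by_contra hcon
    push Not at hcon
    have h2 : B = sSup S := by
      rcases max_choice (sSup S) 0 with h | h
      · exact h
      · rw [hBdef, h] at hcon; exact absurd hcon (lt_irrefl _)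
    nlinarith
  intro t ht ζ hζ
  have h2 := hB t ht ζ hζ
  have h3 : semi M N t f ζ - h t ζ ≤ B := h2
  linarith

end comparison

section super

variable (M : Model)

/-- `c t x = e^(-t) (1_{x = 0} + t p(-x)) / 2` -/
noncomputable def cc (t : ℝ) (x : ℤ) : ℝ :=
  Real.exp (-t) * ((if x = 0 then 1 else 0) + t * M.p (-x)) / 2

/-- the supersolution `∏ (1 - c t x)^(η x)` -/
noncomputable def hh (t : ℝ) (η : Conf) : ℝ := η.prod fun x n => (1 - cc M t x) ^ n

lemma p_le_one (z : ℤ) : M.p z ≤ 1 := le_hasSum M.p_sum z (fun j _ => M.p_nonneg j)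

variable {M}

lemma cc_nonneg {t : ℝ} (ht : 0 ≤ t) (x : ℤ) : 0 ≤ cc M t x := by
  unfold cc
  have := M.p_nonneg (-x)
  have h1 : (0:ℝ) ≤ if x = 0 then 1 else 0 := by split_ifs <;> norm_num
  positivity

lemma cc_le {t : ℝ} (ht : 0 ≤ t) (x : ℤ) : cc M t x ≤ 1 / 2 := by
  unfold cc
  have h0 := M.p_nonneg (-x)
  have h1 : (if x = 0 then (1:ℝ) else 0) ≤ 1 := by split_ifs <;> norm_num
  have h2 : t * M.p (-x) ≤ t := by
    have := p_le_one M (-x)
    nlinarith
  have h3 : Real.exp (-t) * (1 + t) ≤ 1 := by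
    have h4 := Real.add_one_le_exp t
    have h5 : Real.exp (-t) * Real.exp t = 1 := by rw [← Real.exp_add]; simp
    have h6 : 0 < Real.exp (-t) := Real.exp_pos _
    nlinarith
  have h6 : 0 < Real.exp (-t) := Real.exp_pos _
  have h7 : Real.exp (-t) * ((if x = 0 then (1:ℝ) else 0) + t * M.p (-x)) ≤
      Real.exp (-t) * (1 + t) := mul_le_mul_of_nonneg_left (by linarith) h6.le
  linarith

lemma hh_bound {t : ℝ} (ht : 0 ≤ t) (η : Conf) : 0 ≤ hh M t η ∧ hh M t η ≤ 1 := by
  unfold hh Finsupp.prod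
  have h1 : ∀ x ∈ η.support, 0 ≤ (1 - cc M t x) ^ (η x) := fun x _ => by
    have := cc_le (M := M) ht x
    exact pow_nonneg (by linarith) _
  refine ⟨Finset.prod_nonneg h1, Finset.prod_le_one h1 fun x _ => ?_⟩
  have h2 := cc_le (M := M) ht x
  have h3 := cc_nonneg (M := M) ht x
  exact pow_le_one₀ (by linarith) (by linarith)

lemma hh_abs {t : ℝ} (ht : 0 ≤ t) (η : Conf) : |hh M t η| ≤ 1 := by
  rw [abs_of_nonneg (hh_bound ht η).1]; exact (hh_bound ht η).2

lemma hh_add (t : ℝ) (η ζ : Conf) : hh M t (η + ζ) = hh M t η * hh M t ζ := by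
  unfold hh
  exact Finsupp.prod_add_index' (fun _ => pow_zero _) (fun _ _ _ => pow_add _ _ _)

lemma hh_single (t : ℝ) (x : ℤ) : hh M t (Finsupp.single x 1) = 1 - cc M t x := by
  unfold hh
  rw [Finsupp.prod_single_index (h := fun x n => (1 - cc M t x) ^ n) (pow_zero _)]
  exact pow_one _

lemma hh_split (t : ℝ) (η : Conf) (x : ℤ) (hx : x ∈ η.support) :
    hh M t η = hh M t (η - Finsupp.single x 1) * (1 - cc M t x) := by
  rw [← hh_single, ← hh_add, sub_add η x hx]

lemma hh_move (t : ℝ) (η : Conf) (x y : ℤ) :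
    hh M t (move η x y) = hh M t (η - Finsupp.single x 1) * (1 - cc M t y) := by
  unfold move
  rw [hh_add, hh_single]

/-- the derivative of `hh` -/
noncomputable def dd (M : Model) (t : ℝ) (η : Conf) : ℝ :=
  ∑ x ∈ η.support, (η x : ℝ) * (hh M t (η - Finsupp.single x 1) *
    (cc M t x - Real.exp (-t) * M.p (-x) / 2))

lemma L_hh (hg : ∀ n, M.g n = n) {t : ℝ} (ht : 0 ≤ t) (η : Conf) :
    L M (hh M t) η ≤ dd M t η := by
  unfold L dd
  refine Finset.sum_le_sum fun x hx => ?_
  rw [hg]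
  apply mul_le_mul_of_nonneg_left _ (Nat.cast_nonneg _)
  set H : ℝ := hh M t (η - Finsupp.single x 1) with hH
  have hH0 : 0 ≤ H := (hh_bound ht _).1
  have hs : Summable fun y : ℤ => M.p (y - x) * cc M t y :=
    Summable.of_nonneg_of_le (fun y => mul_nonneg (M.p_nonneg _) (cc_nonneg ht y))
      (fun y => mul_le_mul_of_nonneg_left (cc_le ht y) (M.p_nonneg _))
      ((sum_p M x).summable.mul_right (1 / 2))
  have h1 : (fun y : ℤ => if y = x then 0 else M.p (y - x) * (hh M t (move η x y) - hh M t η)) =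
      fun y => H * (M.p (y - x) * cc M t x - M.p (y - x) * cc M t y) := by
    funext y
    rw [hh_move, hh_split t η x hx, ← hH]
    split_ifs with h
    · rw [h]; ring
    · ring
  rw [h1, tsum_mul_left]
  apply mul_le_mul_of_nonneg_left _ hH0
  rw [((sum_p M x).summable.mul_right _).tsum_sub hs, tsum_mul_right, (sum_p M x).tsum_eq, one_mul]
  have h2 : M.p (0 - x) * cc M t 0 ≤ ∑' y : ℤ, M.p (y - x) * cc M t y :=
    hs.le_tsum 0 (fun y _ => mul_nonneg (M.p_nonneg _) (cc_nonneg ht y))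
  have h3 : Real.exp (-t) / 2 ≤ cc M t 0 := by
    unfold cc
    rw [if_pos rfl]
    have h4 := M.p_nonneg (-0)
    have h5 : 0 < Real.exp (-t) := Real.exp_pos _
    have h6 : 0 ≤ Real.exp (-t) * (t * M.p (-0)) := by positivity
    rw [mul_add, mul_one]
    exact div_le_div_of_nonneg_right (le_add_of_nonneg_right h6) (by norm_num)
  have h4 : M.p (-x) * (Real.exp (-t) / 2) ≤ M.p (0 - x) * cc M t 0 := by
    rw [zero_sub]
    exact mul_le_mul_of_nonneg_left h3 (M.p_nonneg _)
  linarith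

lemma cc_deriv (t : ℝ) (x : ℤ) : HasDerivAt (fun u => 1 - cc M u x)
    (cc M t x - Real.exp (-t) * M.p (-x) / 2) t := by
  unfold cc
  have h1 : HasDerivAt (fun u : ℝ => Real.exp (-u)) (Real.exp (-t) * (-1)) t :=
    (hasDerivAt_neg t).exp
  have h2 : HasDerivAt (fun u : ℝ => (if x = 0 then (1:ℝ) else 0) + u * M.p (-x)) (M.p (-x)) t := by
    simpa using ((hasDerivAt_id t).mul_const (M.p (-x))).const_add (if x = 0 then (1:ℝ) else 0)
  have h3 := ((h1.mul h2).div_const 2).const_sub 1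
  have h4 : Real.exp (-t) * ((if x = 0 then (1:ℝ) else 0) + t * M.p (-x)) / 2 -
      Real.exp (-t) * M.p (-x) / 2 =
      -((Real.exp (-t) * (-1) * ((if x = 0 then (1:ℝ) else 0) + t * M.p (-x)) +
        Real.exp (-t) * M.p (-x)) / 2) := by ring
  rw [h4]
  exact h3

lemma hh_deriv {t : ℝ} (ht : 0 ≤ t) (η : Conf) : HasDerivAt (fun u => hh M u η) (dd M t η) t := by
  have h1 : ∀ x ∈ η.support, HasDerivAt (fun u => (1 - cc M u x) ^ (η x))
      ((η x : ℝ) * (1 - cc M t x) ^ (η x - 1) * (cc M t x - Real.exp (-t) * M.p (-x) / 2)) t :=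
    fun x _ => (cc_deriv t x).fun_pow (η x)
  have h2 := HasDerivAt.fun_finsetProd h1
  have h3 : dd M t η = ∑ x ∈ η.support, (∏ y ∈ η.support.erase x, (1 - cc M t y) ^ (η y)) •
      ((η x : ℝ) * (1 - cc M t x) ^ (η x - 1) * (cc M t x - Real.exp (-t) * M.p (-x) / 2)) := by
    unfold dd
    refine Finset.sum_congr rfl fun x hx => ?_
    have h4 : 0 < 1 - cc M t x := by linarith [cc_le (M := M) ht x]
    have h5 := hh_split (M := M) t η x hx
    have h6 : hh M t η = (1 - cc M t x) ^ (η x) *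
        ∏ y ∈ η.support.erase x, (1 - cc M t y) ^ (η y) := by
      unfold hh Finsupp.prod
      rw [Finset.mul_prod_erase η.support (fun y => (1 - cc M t y) ^ (η y)) hx]
    have h7 : (1 - cc M t x) ^ (η x) = (1 - cc M t x) ^ (η x - 1) * (1 - cc M t x) := by
      rw [← pow_succ, Nat.sub_add_cancel (Nat.one_le_iff_ne_zero.2 (Finsupp.mem_support_iff.1 hx))]
    have h8 : hh M t (η - Finsupp.single x 1) = (1 - cc M t x) ^ (η x - 1) *
        ∏ y ∈ η.support.erase x, (1 - cc M t y) ^ (η y) := by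
      rw [h6, h7] at h5
      apply mul_right_cancel₀ h4.ne'
      rw [← h5]
      ring
    rw [h8, smul_eq_mul]
    ring
  rw [h3]
  exact h2

lemma hh_zero (η : Conf) : hh M 0 η = (1 / 2) ^ (η 0) := by
  unfold hh Finsupp.prod
  have h1 : ∀ x, cc M 0 x = if x = 0 then 1 / 2 else 0 := by
    intro x
    unfold cc
    split_ifs <;> simp
  rw [Finset.prod_eq_single (0 : ℤ)]
  · show (1 - cc M 0 0) ^ (η 0) = _
    rw [h1, if_pos rfl]; norm_num
  · intro x _ hx
    show (1 - cc M 0 x) ^ (η x) = 1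
    rw [h1, if_neg hx, sub_zero, one_pow]
  · intro h
    show (1 - cc M 0 0) ^ (η 0) = 1
    rw [Finsupp.notMem_support_iff.1 h, pow_zero]

lemma hh_le_exp {t : ℝ} (ht : 0 ≤ t) (η : Conf) :
    hh M t η ≤ Real.exp (-(t * Real.exp (-t) / 2 * ∑ x ∈ η.support, (η x : ℝ) * M.p (-x))) := by
  unfold hh Finsupp.prod
  have h1 : ∀ x ∈ η.support, (1 - cc M t x) ^ (η x) ≤
      Real.exp (-(t * Real.exp (-t) / 2 * ((η x : ℝ) * M.p (-x)))) := by
    intro x _
    have h2 : 0 ≤ 1 - cc M t x := by linarith [cc_le (M := M) ht x]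
    have h3 : 1 - cc M t x ≤ Real.exp (-(t * Real.exp (-t) / 2 * M.p (-x))) := by
      have h4 : t * Real.exp (-t) / 2 * M.p (-x) ≤ cc M t x := by
        unfold cc
        have h5 : (0:ℝ) ≤ if x = 0 then 1 else 0 := by split_ifs <;> norm_num
        have h6 : 0 < Real.exp (-t) := Real.exp_pos _
        have h7 : 0 ≤ Real.exp (-t) * (if x = 0 then (1:ℝ) else 0) := by positivity
        linarith
      have h8 := Real.add_one_le_exp (-(t * Real.exp (-t) / 2 * M.p (-x)))
      linarith
    refine (pow_le_pow_left₀ h2 h3 _).trans ?_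
    rw [← Real.exp_nat_mul]
    apply Real.exp_le_exp.2
    apply le_of_eq
    ring
  refine (Finset.prod_le_prod (fun x _ => ?_) h1).trans ?_
  · exact pow_nonneg (by linarith [cc_le (M := M) ht x]) _
  · rw [← Real.exp_sum, Finset.sum_neg_distrib, ← Finset.mul_sum]

/-- the bound for the law -/
lemma semi_atMost_le (hg : ∀ n, M.g n = n) {t : ℝ} (ht : 0 ≤ t) (m : ℕ) (η : Conf) :
    semi M (total η) t (atMost m) η ≤ 2 ^ m *
      Real.exp (-(t * Real.exp (-t) / 2 * ∑ x ∈ η.support, (η x : ℝ) * M.p (-x))) := by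
  have h1 := cmp M (total η) t ht (atMost m) (fun u ζ => 2 ^ m * hh M u ζ)
    (fun u ζ => 2 ^ m * dd M u ζ) (2 ^ m)
    (fun u hu ζ => by
      rw [abs_mul, abs_of_nonneg (by positivity : (0:ℝ) ≤ 2 ^ m)]
      have := hh_abs (M := M) hu.1 ζ
      have h2 : (0:ℝ) < 2 ^ m := by positivity
      nlinarith)
    (fun ζ => by
      change (if ζ 0 ≤ m then (1:ℝ) else 0) ≤ 2 ^ m * hh M 0 ζ
      rw [hh_zero]
      split_ifs with h
      · have h2 : (2:ℝ) ^ m * (1 / 2) ^ (ζ 0) = 2 ^ (m - ζ 0) := by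
          rw [one_div, inv_pow, ← div_eq_mul_inv, div_eq_iff (by positivity), ← pow_add,
            Nat.sub_add_cancel h]
        rw [h2]
        exact one_le_pow₀ (by norm_num)
      · positivity)
    (fun u hu ζ _ => ⟨(hh_deriv hu.1 ζ).const_mul _, by
      rw [L_smul M (hh M u) (2 ^ m) ζ]
      exact mul_le_mul_of_nonneg_left (L_hh hg hu.1 ζ) (by positivity)⟩)
    t ⟨ht, le_refl _⟩ η le_rfl
  exact h1.trans (mul_le_mul_of_nonneg_left (hh_le_exp ht η) (by positivity))

lemma semi_atMost_nonneg {t : ℝ} (ht : 0 ≤ t) (m : ℕ) (η : Conf) :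
    0 ≤ semi M (total η) t (atMost m) η := by
  have h1 := cmp M (total η) t ht (-atMost m) (fun _ _ => 0) (fun _ _ => 0) 0
    (fun u _ ζ => by simp)
    (fun ζ => by
      change -(if ζ 0 ≤ m then (1:ℝ) else 0) ≤ 0
      split_ifs <;> norm_num)
    (fun u _ ζ _ => ⟨hasDerivAt_const _ _, by simp [L]⟩)
    t ⟨ht, le_refl _⟩ η le_rfl
  rw [map_neg] at h1
  have h2 : (-(semi M (total η) t) (atMost m)) η = -((semi M (total η) t) (atMost m) η) := rfl
  rw [h2] at h1
  linarith

end super

section limit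

lemma cut_sum (M : Model) (η : ℤ → ℕ) (n : ℕ) :
    ∑ x ∈ (cut η n).support, ((cut η n x : ℕ) : ℝ) * M.p (-x) =
      ∑ x ∈ Finset.Icc (-(n : ℤ)) n, (η x : ℝ) * M.p (-x) := by
  have h1 : (cut η n).support ⊆ Finset.Icc (-(n : ℤ)) n := Finsupp.support_onFinset_subset
  rw [Finset.sum_subset h1]
  · refine Finset.sum_congr rfl fun x hx => ?_
    rw [Finset.mem_Icc] at hx
    have h2 : cut η n x = η x := by
      show (if |x| ≤ n then η x else 0) = η x
      rw [if_pos (abs_le.2 hx)]
    rw [h2]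
  · intro x _ hx
    rw [Finsupp.notMem_support_iff.1 hx]
    simp

lemma sum_tendsto (M : Model) (η : ℤ → ℕ) (h : ¬ Summable fun x : ℤ => (η x : ℝ) * M.p (-x)) :
    Tendsto (fun n : ℕ => ∑ x ∈ Finset.Icc (-(n : ℤ)) n, (η x : ℝ) * M.p (-x)) atTop atTop := by
  have hnn : ∀ x : ℤ, 0 ≤ (η x : ℝ) * M.p (-x) := fun x =>
    mul_nonneg (Nat.cast_nonneg _) (M.p_nonneg _)
  rw [tendsto_atTop]
  intro B
  obtain ⟨s, hs⟩ : ∃ s : Finset ℤ, B ≤ ∑ x ∈ s, (η x : ℝ) * M.p (-x) := by
    by_contra hcon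
    push Not at hcon
    exact h (summable_of_sum_le hnn fun s => (hcon s).le)
  filter_upwards [eventually_ge_atTop (s.sup fun x => x.natAbs)] with n hn
  refine hs.trans (Finset.sum_le_sum_of_subset_of_nonneg ?_ fun x _ _ => hnn x)
  intro x hx
  have h1 : x.natAbs ≤ n := (Finset.le_sup (f := fun x : ℤ => x.natAbs) hx).trans hn
  rw [Finset.mem_Icc]
  omega

lemma law_tendsto (M : Model) (hg : ∀ n, M.g n = n) (η : ℤ → ℕ)
    (h : ¬ Summable fun x : ℤ => (η x : ℝ) * M.p (-x)) {t : ℝ} (ht : 0 < t) (m : ℕ) :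
    Tendsto (fun n => semi M (total (cut η n)) t (atMost m) (cut η n)) atTop (𝓝 0) := by
  have h1 := sum_tendsto M η h
  have h2 : Tendsto (fun n : ℕ => 2 ^ m * Real.exp (-(t * Real.exp (-t) / 2 *
      ∑ x ∈ Finset.Icc (-(n : ℤ)) n, (η x : ℝ) * M.p (-x)))) atTop (𝓝 0) := by
    have h3 : 0 < t * Real.exp (-t) / 2 := by positivity
    have h4 := Real.tendsto_exp_neg_atTop_nhds_zero.comp (h1.const_mul_atTop h3)
    simpa using h4.const_mul (2 ^ m)
  refine squeeze_zero (fun n => semi_atMost_nonneg ht.le m _) (fun n => ?_) h2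
  have h5 := semi_atMost_le hg ht.le m (cut η n)
  rwa [cut_sum] at h5

lemma coupling (M : Model) (hg : ∀ n, M.g n = n) (η : ℤ → ℕ)
    (h : ¬ Summable fun x : ℤ => (η x : ℝ) * M.p (-x)) {t : ℝ} (ht : 0 < t)
    (Ω : Type) [MeasurableSpace Ω] (P : Measure Ω) [IsProbabilityMeasure P]
    (X : ℕ → Ω → Conf) (hX : ∀ n, HasLaw M (cut η n) t P (X n))
    (hmono : ∀ᵐ ω ∂P, ∀ n x, X n ω x ≤ X (n + 1) ω x) :
    ∀ᵐ ω ∂P, Tendsto (fun n => X n ω 0) atTop atTop := by
  have h1 : ∀ m : ℕ, ∀ᵐ ω ∂P, ∃ n, m < X n ω 0 := by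
    intro m
    have hset : ∀ n, MeasurableSet {ω | X n ω 0 ≤ m} := fun n =>
      (hX n).1 (show MeasurableSet {ζ : Conf | ζ 0 ≤ m} from trivial)
    have h2 : ∀ n, P.real {ω | X n ω 0 ≤ m} =
        semi M (total (cut η n)) t (atMost m) (cut η n) := by
      intro n
      rw [← (hX n).2 (atMost m)]
      have h3 : (fun ω => atMost m (X n ω)) = Set.indicator {ω | X n ω 0 ≤ m} (fun _ => (1:ℝ)) := by
        funext ω
        change (if X n ω 0 ≤ m then (1:ℝ) else 0) = _
        by_cases h4 : X n ω 0 ≤ m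
        · rw [if_pos h4, Set.indicator_of_mem (by exact h4)]
        · rw [if_neg h4, Set.indicator_of_notMem (by exact h4)]
      rw [h3, integral_indicator_const _ (hset n)]
      simp
    have h3 : ∀ n, P.real {ω | ∀ k, X k ω 0 ≤ m} ≤
        semi M (total (cut η n)) t (atMost m) (cut η n) := by
      intro n
      rw [← h2 n]
      exact measureReal_mono (fun ω hω => hω n)
    have h4 : P.real {ω | ∀ k, X k ω 0 ≤ m} ≤ 0 :=
      ge_of_tendsto' (law_tendsto M hg η h ht m) h3
    have h5 : P {ω | ∀ k, X k ω 0 ≤ m} = 0 := by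
      have h6 : P.real {ω | ∀ k, X k ω 0 ≤ m} = 0 := le_antisymm h4 measureReal_nonneg
      rwa [measureReal_eq_zero_iff] at h6
    rw [ae_iff]
    convert h5 using 2
    ext ω
    simp
  filter_upwards [ae_all_iff.2 h1, hmono] with ω h2 h3
  rw [tendsto_atTop]
  intro b
  obtain ⟨n, hn⟩ := h2 b
  have h4 : Monotone fun n => X n ω 0 := monotone_nat_of_le_succ fun n => h3 n 0
  filter_upwards [eventually_ge_atTop n] with k hk
  exact hn.le.trans (h4 hk)

end limit

section example_

/-- `p(-4^(k+1)) = 2^(-(k+1))` -/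
noncomputable def pE : ℤ → ℝ :=
  Function.extend (fun k : ℕ => -(4:ℤ) ^ (k + 1)) (fun k => 1 / 2 / 2 ^ k) 0

/-- `η(4^(k+1)) = 4^(k+1)` -/
noncomputable def ηE : ℤ → ℕ :=
  Function.extend (fun k : ℕ => (4:ℤ) ^ (k + 1)) (fun k => 4 ^ (k + 1)) 0

lemma inj4 : Function.Injective fun k : ℕ => (4:ℤ) ^ (k + 1) := by
  intro a b h
  have h1 : (4:ℤ) ^ (a + 1) = 4 ^ (b + 1) := h
  have h2 : (4:ℕ) ^ (a + 1) = 4 ^ (b + 1) := by exact_mod_cast h1
  have := Nat.pow_right_injective (le_refl 2 |>.trans (by norm_num : 2 ≤ 4)) h2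
  omega

lemma inj4n : Function.Injective fun k : ℕ => -(4:ℤ) ^ (k + 1) := fun _ _ h =>
  inj4 (neg_injective h)

/-- the kernel of the example, with `g(n) = n` -/
noncomputable def ME : Model where
  g n := n
  p := pE
  g_zero := by simp
  g_mono := Nat.mono_cast
  g_top := tendsto_natCast_atTop_atTop
  p_nonneg z := by
    unfold pE
    by_cases h : ∃ k : ℕ, -(4:ℤ) ^ (k + 1) = z
    · obtain ⟨k, rfl⟩ := h
      rw [inj4n.extend_apply]
      positivity
    · rw [Function.extend_apply' _ _ _ h]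
      exact le_refl _
  p_sum := by
    unfold pE
    rw [hasSum_extend_zero inj4n]
    exact hasSum_geometric_two' 1

lemma ηE_density : FiniteDensity ηE := by
  refine ⟨2, fun n => ?_⟩
  have h1 : ∑ x ∈ Finset.Icc (-(n : ℤ)) n, ηE x ≤
      ∑ x ∈ (Finset.range (Nat.log 4 n)).image (fun k : ℕ => (4:ℤ) ^ (k + 1)), ηE x := by
    apply Finset.sum_le_sum_of_ne_zero
    intro x hx hne
    by_cases h : ∃ k : ℕ, (4:ℤ) ^ (k + 1) = x
    · obtain ⟨k, rfl⟩ := h
      rw [Finset.mem_image]
      refine ⟨k, ?_, rfl⟩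
      rw [Finset.mem_range]
      have h2 : (4:ℤ) ^ (k + 1) ≤ n := (Finset.mem_Icc.1 hx).2
      have h3 : 4 ^ (k + 1) ≤ n := by exact_mod_cast h2
      exact Nat.lt_of_succ_le (Nat.le_log_of_pow_le (by norm_num) h3)
    · exact absurd (by unfold ηE; rw [Function.extend_apply' _ _ _ h]; rfl) hne
  have h2 : ∑ x ∈ (Finset.range (Nat.log 4 n)).image (fun k : ℕ => (4:ℤ) ^ (k + 1)), ηE x =
      ∑ k ∈ Finset.range (Nat.log 4 n), 4 ^ (k + 1) := by
    rw [Finset.sum_image (fun _ _ _ _ h => inj4 h)]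
    refine Finset.sum_congr rfl fun k _ => ?_
    unfold ηE
    exact inj4.extend_apply _ _ k
  have h3 : ∀ K : ℕ, 3 * ∑ k ∈ Finset.range K, 4 ^ (k + 1) + 4 = 4 ^ (K + 1) := by
    intro K
    induction K with
    | zero => simp
    | succ K ih => rw [Finset.sum_range_succ, pow_succ 4 (K + 1)]; omega
  have h4 : ∑ x ∈ Finset.Icc (-(n : ℤ)) n, ηE x ≤ 2 * (2 * n + 1) := by
    rw [h2] at h1
    refine h1.trans ?_
    have h5 := h3 (Nat.log 4 n)
    rcases Nat.eq_zero_or_pos n with h6 | h6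
    · subst h6; simp
    · have h7 : 4 ^ Nat.log 4 n ≤ n := Nat.pow_log_le_self 4 h6.ne'
      rw [pow_succ] at h5
      omega
  calc (∑ x ∈ Finset.Icc (-(n : ℤ)) n, (ηE x : ℝ)) = ((∑ x ∈ Finset.Icc (-(n : ℤ)) n, ηE x : ℕ) : ℝ) := by
        push_cast; rfl
    _ ≤ ((2 * (2 * n + 1) : ℕ) : ℝ) := by exact_mod_cast h4
    _ = 2 * (2 * n + 1) := by push_cast; ring

lemma ηE_div : ¬ Summable fun x : ℤ => (ηE x : ℝ) * ME.p (-x) := by
  intro h
  have h1 := h.comp_injective inj4
  have h2 : ((fun x : ℤ => (ηE x : ℝ) * ME.p (-x)) ∘ fun k : ℕ => (4:ℤ) ^ (k + 1)) =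
      fun k : ℕ => (2:ℝ) ^ (k + 1) := by
    funext k
    have h3 : ηE ((4:ℤ) ^ (k + 1)) = 4 ^ (k + 1) := inj4.extend_apply _ _ k
    have h4 : ME.p (-(4:ℤ) ^ (k + 1)) = 1 / 2 / 2 ^ k := by
      show pE _ = _
      unfold pE
      exact inj4n.extend_apply _ _ k
    show (ηE ((4:ℤ) ^ (k + 1)) : ℝ) * ME.p (-(4:ℤ) ^ (k + 1)) = _
    rw [h3, h4]
    push_cast
    rw [show (4:ℝ) = 2 * 2 by norm_num, mul_pow, pow_succ]
    field_simp
  rw [h2] at h1
  have h3 := h1.tendsto_atTop_zero
  have h4 : ∀ k : ℕ, (1:ℝ) ≤ 2 ^ (k + 1) := fun k => one_le_pow₀ (by norm_num)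
  have h5 := ge_of_tendsto' h3 h4
  linarith

end example_

/-- (1) If `g(n) = n` and `∑ η(x) p(-x) = ∞` then the process started from `η` explodes at the
origin at every time `t > 0`: the probability that `η^n_t` has at most `m` particles at `0` tends to
`0` as `n → ∞`, for every `m`, and on every probability space with monotone versions of the
`η^n_t`, almost surely `η^n_t(0) → ∞`.  (2) The condition of (1) holds for some kernel on `ℤ` and some
configuration of finite asymptotic density. -/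
theorem result :
    (∀ M : Model, (∀ n, M.g n = n) → ∀ η : ℤ → ℕ,
      (¬ Summable fun x : ℤ => (η x : ℝ) * M.p (-x)) → ∀ t : ℝ, 0 < t →
        (∀ m : ℕ, Tendsto (fun n => semi M (total (cut η n)) t (atMost m) (cut η n)) atTop (𝓝 0)) ∧
        ∀ (Ω : Type) [MeasurableSpace Ω] (P : Measure Ω) [IsProbabilityMeasure P]
          (X : ℕ → Ω → Conf), (∀ n, HasLaw M (cut η n) t P (X n)) →
          (∀ᵐ ω ∂P, ∀ n x, X n ω x ≤ X (n + 1) ω x) →
          ∀ᵐ ω ∂P, Tendsto (fun n => X n ω 0) atTop atTop) ∧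
    ∃ (M : Model) (η : ℤ → ℕ), (∀ n, M.g n = n) ∧ FiniteDensity η ∧
      ¬ Summable fun x : ℤ => (η x : ℝ) * M.p (-x) :=
  ⟨fun M hg η h _ ht => ⟨law_tendsto M hg η h ht, fun Ω _ P _ X hX hmono =>
    coupling M hg η h ht Ω P X hX hmono⟩, ME, ηE, fun _ => rfl, ηE_density, ηE_div⟩

end Pool.Agent.Results.MP_773c46_pr.Explosion
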